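import Mathlib
import Pool.Agent.H.MP_053bca_co.A

set_option autoImplicit false

namespace Pool.Agent.Results.MP_053bca_co.All

theorem result (G : Type) [Group G] [Finite G] (hodd : Odd (Nat.card G))
    (hna : ∃ a b : G, a * b ≠ b * a) :
    ∃ θ : Equiv.Perm G, (Set.range fun x => x * θ x).ncard = Nat.card G - 1 := by
  obtain ⟨θ, g, hθ, hg, x0, h1, h2⟩ := Pool.Agent.H.MP_053bca_co.near_of_noncomm _ G rfl hodd hna
  refine ⟨Equiv.ofBijective θ (Finite.injective_iff_bijective.mp hθ), ?_⟩
  have : (Set.range fun x => x * θ x) = Set.univ \ {g x0} := by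
    ext z
    simp only [Set.mem_range, Set.mem_sdiff, Set.mem_univ, true_and, Set.mem_singleton_iff]
    constructor
    · rintro ⟨x, rfl⟩
      by_cases hx : x = x0
      · exact hx ▸ h2
      · rw [h1 x hx]
        exact fun e => hx (hg e)
    · intro hz
      obtain ⟨x, rfl⟩ := Finite.injective_iff_surjective.mp hg z
      exact ⟨x, h1 x fun e => hz (e ▸ rfl)⟩
  simp only [Equiv.ofBijective_apply]
  rw [this, Set.ncard_sdiff_singleton_of_mem (Set.mem_univ _), Set.ncard_univ]

end Pool.Agent.Results.MP_053bca_co.All
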